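import Pool.Agent.Helper56.RZ.GoalsF

/-!
# Project RZ5 (MP_f32c9c_an), packet RS5: sum over four return times
-/

set_option autoImplicit false

open Set Filter Topology MeasureTheory

namespace Pool.Agent.Helper78.RZ

open Pool.Agent.Helper56.RZ

/-- the first return time, cut at `N0` -/
theorem exJ (N0 : ℕ) (P : ℕ → Prop) :
    ∃ J, (∀ j, 1 ≤ j → j ≤ J → ¬ P j) ∧ (J = N0 ∨ (J < N0 ∧ P (J + 1))) := by
  classical
  by_cases hex : ∃ n, n < N0 ∧ P (n + 1)
  · obtain ⟨h1, h2⟩ := Nat.find_spec hex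
    refine ⟨Nat.find hex, ?_, Or.inr ⟨h1, h2⟩⟩
    intro j hj1 hj2 hP
    refine Nat.find_min hex (m := j - 1) (by omega) ⟨by omega, ?_⟩
    rwa [Nat.sub_add_cancel hj1]
  · push Not at hex
    refine ⟨N0, ?_, Or.inl rfl⟩
    intro j hj1 hj2
    have := hex (j - 1) (by omega)
    rwa [Nat.sub_add_cancel hj1] at this

theorem rs5 : StmtRS5 := by
  intro X _ _ _ _ m _ F h B g A N0 w hF hh hB hhB hg hA hw hg0 hgJ
  classical
  have hFc : Continuous F := F.continuous
  have hSc : Continuous F.symm := F.symm.continuous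
  have hhc : Continuous h := h.continuous
  have hFk : ∀ n, Continuous (F^[n]) := fun n => hFc.iterate n
  have hSk : ∀ n, Continuous (F.symm^[n]) := fun n => hSc.iterate n
  have hpc : ∀ (i : Fin 4) (n : ℕ), Continuous (fun x => pc F h x i n) := by
    intro i n
    fin_cases i
    · exact hFk n
    · exact hSk n
    · exact (hFk n).comp hhc
    · exact (hSk n).comp hhc
  let E : Fin 4 → ℕ → Set X := fun i n => {x | x ∈ B ∧ pc F h x i (n + 1) ∈ B}
  have mE : ∀ i n, MeasurableSet (E i n) := fun i n => hB.inter ((hpc i (n + 1)).measurable hB)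
  have mE1 : ∀ n, MeasurableSet {x | x ∈ B ∧ F^[n + 1] x ∈ B} := fun n =>
    hB.inter ((hFk (n + 1)).measurable hB)
  have mE2 : ∀ n, MeasurableSet {x | x ∈ B ∧ F.symm^[n + 1] x ∈ B} := fun n =>
    hB.inter ((hSk (n + 1)).measurable hB)
  have hinv : ∀ n, Function.LeftInverse (F.symm^[n]) (F^[n]) := fun n =>
    Function.LeftInverse.iterate F.symm_apply_apply n
  have e2 : ∀ n, m {x | x ∈ B ∧ F.symm^[n + 1] x ∈ B} = m {x | x ∈ B ∧ F^[n + 1] x ∈ B} := by
    intro n
    have h1 := (hF.iterate (n + 1)).measure_preimage (mE2 n).nullMeasurableSet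
    rw [← h1]
    apply congrArg
    ext x
    simp only [Set.mem_preimage, Set.mem_ofPred_eq]
    rw [hinv (n + 1) x]
    exact and_comm
  have e3 : ∀ n, m {x | x ∈ B ∧ F^[n + 1] (h x) ∈ B} = m {x | x ∈ B ∧ F^[n + 1] x ∈ B} := by
    intro n
    have h1 := hh.measure_preimage (mE1 n).nullMeasurableSet
    rw [← h1]
    apply congrArg
    ext x
    simp only [Set.mem_preimage, Set.mem_ofPred_eq]
    rw [hhB x]
  have e4 : ∀ n, m {x | x ∈ B ∧ F.symm^[n + 1] (h x) ∈ B} = m {x | x ∈ B ∧ F^[n + 1] x ∈ B} := by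
    intro n
    rw [← e2 n]
    have h1 := hh.measure_preimage (mE2 n).nullMeasurableSet
    rw [← h1]
    apply congrArg
    ext x
    simp only [Set.mem_preimage, Set.mem_ofPred_eq]
    rw [hhB x]
  have eE : ∀ i n, m (E i n) = m {x | x ∈ B ∧ F^[n + 1] x ∈ B} := by
    intro i n
    fin_cases i
    · rfl
    · exact e2 n
    · exact e3 n
    · exact e4 n
  -- indicators
  let I : Set X → X → ℝ := fun S => S.indicator (fun _ => (1 : ℝ))
  have hI0 : ∀ S x, 0 ≤ I S x := fun S x => Set.indicator_nonneg (fun _ _ => zero_le_one) x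
  have hI1 : ∀ S x, x ∈ S → I S x = 1 := fun S x hx => Set.indicator_of_mem hx _
  have hIi : ∀ S, MeasurableSet S → Integrable (I S) m := fun S hS =>
    (integrable_const (1 : ℝ)).indicator hS
  have hIv : ∀ S, MeasurableSet S → ∫ x, I S x ∂m = (m S).toReal := by
    intro S hS
    have := integral_indicator_const (μ := m) (1 : ℝ) hS
    simpa [Measure.real] using this
  let G : Fin 4 → X → ℝ := fun i x => w N0 * I B x + ∑ n ∈ Finset.range N0, w n * I (E i n) x
  have hG0 : ∀ i x, 0 ≤ G i x := fun i x =>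
    add_nonneg (mul_nonneg (hw N0) (hI0 B x))
      (Finset.sum_nonneg (fun n _ => mul_nonneg (hw n) (hI0 _ x)))
  have hsi : ∀ i, Integrable (fun x => ∑ n ∈ Finset.range N0, w n * I (E i n) x) m := fun i =>
    integrable_finsetSum _ (fun n _ => (hIi _ (mE i n)).const_mul (w n))
  have hBi : Integrable (fun x => w N0 * I B x) m := (hIi B hB).const_mul (w N0)
  have hGi : ∀ i, Integrable (G i) m := fun i => hBi.add (hsi i)
  have hGv : ∀ i, ∫ x, G i x ∂m = w N0 * (m B).toReal +
      ∑ n ∈ Finset.range N0, w n * (m {x | x ∈ B ∧ F^[n + 1] x ∈ B}).toReal := by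
    intro i
    have h1 : ∫ x, G i x ∂m = ∫ x, w N0 * I B x ∂m +
        ∫ x, ∑ n ∈ Finset.range N0, w n * I (E i n) x ∂m := integral_add hBi (hsi i)
    rw [h1, integral_const_mul, hIv B hB,
      integral_finsetSum _ (fun n _ => (hIi _ (mE i n)).const_mul (w n))]
    congr 1
    refine Finset.sum_congr rfl fun n _ => ?_
    rw [integral_const_mul, hIv _ (mE i n), eE i n]
  -- pointwise
  have hpt : ∀ x, |g x| ≤ A * ∑ i, G i x := by
    intro x
    by_cases hx : x ∈ B
    · choose J hJ using fun i => exJ N0 (fun j => pc F h x i j ∈ B)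
      refine (hgJ J x hx fun i => hJ i).trans (mul_le_mul_of_nonneg_left ?_ hA)
      refine Finset.sum_le_sum fun i _ => ?_
      have hs : ∀ n, 0 ≤ w n * I (E i n) x := fun n => mul_nonneg (hw n) (hI0 _ x)
      show w (J i) ≤ w N0 * I B x + ∑ n ∈ Finset.range N0, w n * I (E i n) x
      rw [hI1 B x hx, mul_one]
      rcases (hJ i).2 with h1 | ⟨h1, h2⟩
      · rw [h1]
        have := Finset.sum_nonneg (fun n (_ : n ∈ Finset.range N0) => hs n)
        linarith
      · have h3 : w (J i) * I (E i (J i)) x ≤ ∑ n ∈ Finset.range N0, w n * I (E i n) x :=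
          Finset.single_le_sum (f := fun n => w n * I (E i n) x) (fun n _ => hs n)
            (Finset.mem_range.2 h1)
        rw [hI1 (E i (J i)) x ⟨hx, h2⟩, mul_one] at h3
        have := hw N0
        linarith
    · rw [hg0 x hx, abs_zero]
      exact mul_nonneg hA (Finset.sum_nonneg fun i _ => hG0 i x)
  have hgi : Integrable g m :=
    hg.integrable_of_hasCompactSupport (HasCompactSupport.of_compactSpace g)
  have hSi : Integrable (fun x => ∑ i, G i x) m := integrable_finsetSum _ (fun i _ => hGi i)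
  calc |∫ x, g x ∂m| ≤ ∫ x, |g x| ∂m := abs_integral_le_integral_abs
    _ ≤ ∫ x, A * ∑ i, G i x ∂m := integral_mono hgi.abs (hSi.const_mul A) hpt
    _ = A * ∑ i : Fin 4, (w N0 * (m B).toReal +
          ∑ n ∈ Finset.range N0, w n * (m {x | x ∈ B ∧ F^[n + 1] x ∈ B}).toReal) := by
        rw [integral_const_mul, integral_finsetSum _ (fun i _ => hGi i)]
        simp only [hGv]
    _ = _ := by
        rw [Finset.sum_const, Finset.card_univ, Fintype.card_fin]
        simp only [nsmul_eq_mul, Nat.cast_ofNat]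
        ring

end Pool.Agent.Helper78.RZ
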